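import Pool.Agent.Helper41x.Fr.Lo
import Pool.Agent.W221.ABC.Main7

/-!
# The large triples
-/

set_option autoImplicit false

namespace Pool.Agent.Helper41x.Fr

open Finset Filter Topology
open Pool.Agent.W221.ABC7

theorem Fx_le {l : ℝ} (h : l ≤ 7 / 3) : Fx l ≤ 4 / 7 * l := by
  unfold Fx
  split_ifs with h1 h2 h3 h4 h5
  · linarith
  · push Not at h1; linarith
  · push Not at h1 h2; linarith
  · push Not at h1 h2 h3; linarith
  · push Not at h1 h2 h3 h4; linarith
  · linarith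

theorem high {η A ε : ℝ} (hη : 3 / 7 ≤ η) (hA : 1 ≤ A) (hε : 0 < ε) : ∃ C : ℝ, 0 < C ∧
    ∀ X : ℝ, 1 ≤ X → ∀ F : Finset (ℕ × ℕ × ℕ), (∀ t ∈ F, Ab t ∧ (r3 t : ℝ) ≤ X ∧
      X ^ η ≤ (t.2.2 : ℝ) ∧ (t.2.2 : ℝ) ≤ X ^ A) → (F.card : ℝ) ≤ C * X ^ (4 / 7 + ε) := by
  classical
  set h : ℝ := ε / 3 with hh
  have hh0 : 0 < h := by positivity
  set ε₂ : ℝ := ε / (2 * (A + h)) with hε₂
  have hε₂0 : 0 < ε₂ := by positivity
  set n : ℕ := ⌊A / h⌋₊ + 1 with hn
  have hη0 : 0 < η := by linarith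
  have hcnt : ∀ j : ℕ, ∃ C : ℝ, 0 ≤ C ∧ ∀ N : ℕ, 1 ≤ N →
      ((ExcB 1 (1 / (η + j * h)) N).ncard : ℝ) ≤ C * (N : ℝ) ^ (Fx (1 / (η + j * h)) + ε₂) := by
    intro j
    obtain ⟨C, hC⟩ := count_FxB 1 (1 / (η + j * h)) ε₂ (by positivity) hε₂0
    refine ⟨|C|, abs_nonneg C, fun N hN => (hC N hN).trans ?_⟩
    exact mul_le_mul_of_nonneg_right (le_abs_self C) (by positivity)
  choose C hC0 hC using hcnt
  refine ⟨1 + ∑ j ∈ Finset.range n, C j, by
    have : 0 ≤ ∑ j ∈ Finset.range n, C j := Finset.sum_nonneg fun j _ => hC0 j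
    linarith, fun X hX F hF => ?_⟩
  have hX0 : 0 < X := by linarith
  have hpow : 0 ≤ X ^ (4 / 7 + ε) := by positivity
  rcases Finset.eq_empty_or_nonempty F with he | ⟨t₀, ht₀⟩
  · rw [he, Finset.card_empty, Nat.cast_zero]
    have : 0 ≤ ∑ j ∈ Finset.range n, C j := Finset.sum_nonneg fun j _ => hC0 j
    positivity
  have hX1 : 1 < X := by
    rcases eq_or_lt_of_le hX with h1 | h1
    · exfalso
      obtain ⟨a1, a2, a3, a4⟩ := hF t₀ ht₀
      rw [← h1, Real.one_rpow] at a4
      have : 2 ≤ t₀.2.2 := by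
        have := a1.1; have := a1.2.1; have := a1.2.2.2
        omega
      have : (2 : ℝ) ≤ t₀.2.2 := by exact_mod_cast this
      linarith
    · exact h1
  have hL : 0 < Real.log X := Real.log_pos hX1
  set J : ℕ × ℕ × ℕ → ℕ := fun t => ⌊(Real.log t.2.2 / Real.log X - η) / h⌋₊ with hJ
  have hprop : ∀ t ∈ F, J t ∈ Finset.range n ∧ (η + J t * h) * Real.log X ≤ Real.log t.2.2 ∧
      Real.log t.2.2 ≤ (η + J t * h + h) * Real.log X ∧ η + J t * h ≤ A := by
    intro t ht
    obtain ⟨a1, a2, a3, a4⟩ := hF t ht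
    have hc : (0 : ℝ) < t.2.2 := (mx_pos a1).trans_le (mx_le a1)
    have h1 : η * Real.log X ≤ Real.log t.2.2 := by
      rw [← Real.log_rpow hX0]
      exact Real.log_le_log (by positivity) a3
    have h2 : Real.log t.2.2 ≤ A * Real.log X := by
      rw [← Real.log_rpow hX0]
      exact Real.log_le_log hc a4
    have h3 : η ≤ Real.log t.2.2 / Real.log X := by rwa [le_div_iff₀ hL]
    have h4 : Real.log t.2.2 / Real.log X ≤ A := by rwa [div_le_iff₀ hL]
    have h5 : 0 ≤ (Real.log t.2.2 / Real.log X - η) / h := div_nonneg (by linarith) hh0.le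
    have h6 := Nat.floor_le h5
    have h7 := Nat.lt_floor_add_one ((Real.log t.2.2 / Real.log X - η) / h)
    rw [le_div_iff₀ hh0] at h6
    rw [div_lt_iff₀ hh0] at h7
    have h8 : η + J t * h ≤ Real.log t.2.2 / Real.log X := by
      show η + (⌊(Real.log t.2.2 / Real.log X - η) / h⌋₊ : ℝ) * h ≤ _
      linarith
    have h9 : Real.log t.2.2 / Real.log X ≤ η + J t * h + h := by
      show _ ≤ η + (⌊(Real.log t.2.2 / Real.log X - η) / h⌋₊ : ℝ) * h + h
      linarith
    refine ⟨?_, ?_, ?_, h8.trans h4⟩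
    · rw [Finset.mem_range, hn]
      refine Nat.lt_succ_of_le (Nat.floor_le_floor ?_)
      exact div_le_div_of_nonneg_right (by linarith) hh0.le
    · rwa [le_div_iff₀ hL] at h8
    · rwa [div_le_iff₀ hL] at h9
  have hfib : ∀ j ∈ Finset.range n, ((F.filter fun t => J t = j).card : ℝ) ≤
      C j * X ^ (4 / 7 + ε) := by
    intro j _
    rcases Finset.eq_empty_or_nonempty (F.filter fun t => J t = j) with he | ⟨t₁, ht₁⟩
    · rw [he, Finset.card_empty, Nat.cast_zero]
      exact mul_nonneg (hC0 j) hpow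
    rw [Finset.mem_filter] at ht₁
    have hjA : η + j * h ≤ A := by
      have := (hprop t₁ ht₁.1).2.2.2
      rwa [ht₁.2] at this
    have htj : 0 < η + j * h := by positivity
    have htj3 : 3 / 7 ≤ η + j * h := hη.trans (by
      have : 0 ≤ (j : ℝ) * h := by positivity
      linarith)
    set N : ℕ := ⌊X ^ (η + j * h + h)⌋₊ with hN
    have hN1 : 1 ≤ N := Nat.le_floor (by
      rw [Nat.cast_one]
      exact Real.one_le_rpow hX (by positivity))
    have hsub : ((F.filter fun t => J t = j : Finset (ℕ × ℕ × ℕ)) : Set (ℕ × ℕ × ℕ)) ⊆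
        ExcB 1 (1 / (η + j * h)) N := by
      intro t ht
      rw [Finset.mem_coe, Finset.mem_filter] at ht
      obtain ⟨a1, a2, a3, a4⟩ := hF t ht.1
      obtain ⟨b1, b2, b3, b4⟩ := hprop t ht.1
      rw [ht.2] at b2 b3
      have hc : (0 : ℝ) < t.2.2 := (mx_pos a1).trans_le (mx_le a1)
      refine ⟨a1.1, a1.2.1, a1.2.2.1, a1.2.2.2, ?_, ?_⟩
      · refine Nat.le_floor ?_
        rw [← Real.log_le_log_iff hc (by positivity), Real.log_rpow hX0]
        exact b3
      · rw [one_mul]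
        refine le_trans (show ((r3 t : ℕ) : ℝ) ≤ X from a2) ?_
        rw [← Real.log_le_log_iff hX0 (by positivity), Real.log_rpow hc, one_div,
          ← mul_le_mul_iff_right₀ htj, mul_inv_cancel_left₀ htj.ne']
        exact b2
    have h1 := Set.ncard_le_ncard hsub (excB_finite _ _ _)
    rw [Set.ncard_coe_finset] at h1
    have h2 : ((F.filter fun t => J t = j).card : ℝ) ≤
        C j * (N : ℝ) ^ (Fx (1 / (η + j * h)) + ε₂) :=
      le_trans (by exact_mod_cast h1) (hC j N hN1)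
    refine h2.trans (mul_le_mul_of_nonneg_left ?_ (hC0 j))
    have hF1 : Fx (1 / (η + j * h)) ≤ 4 / 7 * (1 / (η + j * h)) := Fx_le (by
      rw [div_le_iff₀ htj]
      linarith)
    have hF0 : 0 < Fx (1 / (η + j * h)) := Fx_pos _ (by positivity)
    have hNX : (N : ℝ) ≤ X ^ (η + j * h + h) := Nat.floor_le (by positivity)
    calc (N : ℝ) ^ (Fx (1 / (η + j * h)) + ε₂)
        ≤ (X ^ (η + j * h + h)) ^ (Fx (1 / (η + j * h)) + ε₂) :=
          Real.rpow_le_rpow (Nat.cast_nonneg _) hNX (by positivity)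
      _ = X ^ ((η + j * h + h) * (Fx (1 / (η + j * h)) + ε₂)) := by rw [← Real.rpow_mul hX0.le]
      _ ≤ X ^ (4 / 7 + ε) := by
          refine Real.rpow_le_rpow_of_exponent_le hX ?_
          set τ : ℝ := η + j * h with hτ
          have e1 : (τ + h) * (Fx (1 / τ) + ε₂) ≤ (τ + h) * (4 / 7 * (1 / τ) + ε₂) :=
            mul_le_mul_of_nonneg_left (by linarith) (by positivity)
          have e2 : (τ + h) * (4 / 7 * (1 / τ) + ε₂) = 4 / 7 + 4 / 7 * h * (1 / τ) + (τ + h) * ε₂ := by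
            field_simp
          have e3 : 1 / τ ≤ 7 / 3 := by
            rw [div_le_iff₀ htj]
            linarith
          have e4 : 4 / 7 * h * (1 / τ) ≤ 4 / 7 * h * (7 / 3) :=
            mul_le_mul_of_nonneg_left e3 (by positivity)
          have e5 : (τ + h) * ε₂ ≤ (A + h) * ε₂ :=
            mul_le_mul_of_nonneg_right (by linarith) hε₂0.le
          have e6 : (A + h) * ε₂ = ε / 2 := by
            rw [hε₂]
            field_simp
          have e7 : h = ε / 3 := hh
          linarith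
  have hsum : (F.card : ℝ) = ∑ j ∈ Finset.range n, ((F.filter fun t => J t = j).card : ℝ) := by
    have := Finset.card_eq_sum_card_fiberwise (s := F) (t := Finset.range n) (f := J)
      fun t ht => (hprop t ht).1
    exact_mod_cast this
  rw [hsum]
  refine (Finset.sum_le_sum hfib).trans ?_
  rw [← Finset.sum_mul, add_mul]
  linarith

end Pool.Agent.Helper41x.Fr
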