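import Pool.Agent.Helper41x.Fr.Mid
import Pool.Agent.Helper41x.Fr.High
import Pool.Agent.N906.QP.All
import Pool.Agent.N906.RS.Asy
import Pool.Agent.Y911.AB.Main

/-!
# The law
-/

set_option autoImplicit false

namespace Pool.Agent.Helper41x.Fr

open Finset Filter Topology
open Pool.Agent.N906.KG

/-- the triples with `mx ≤ Z` -/
def Em (M X Z : ℝ) : Set (ℕ × ℕ × ℕ) :=
  {t | Ab t ∧ (r3 t : ℝ) ≤ X ∧ (r3 t : ℝ) ^ M ≤ (t.2.2 : ℝ) ∧ mx t ≤ Z}

theorem Em_finite (M X Z : ℝ) : (Em M X Z).Finite :=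
  fin_of_le (Z := 2 * Z) fun _ ht => ⟨ht.1, (le_mx ht.1).trans (by linarith [ht.2.2.2])⟩

theorem lim_of {M η : ℝ} (hM : 1 / 3 < M) (hMη : M < η) (hη : η < 1 / 2) (N : ℝ → ℝ) {C : ℝ}
    (hC : 0 ≤ C)
    (hup : ∀ᶠ Y : ℝ in atTop, N Y ≤ ((Em M (Real.exp Y) (Real.exp (η * Y))).ncard : ℝ) +
      C * Real.exp ((1 - M) * Y))
    (hlo : ∀ᶠ Y : ℝ in atTop,
      ((Ex M (Real.exp Y) (2 * Real.exp (M * Y))).ncard : ℝ) ≤ N Y) :
    Tendsto (fun X : ℝ => (Real.log (N (Real.log X)) - (1 - M) * Real.log X) /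
      √(Real.log X / Real.log (Real.log X))) atTop (𝓝 √(24 * (3 * M - 1))) := by
  have hk : 0 < 3 * M - 1 := by linarith
  have h := N906.RS.squeeze (e := 1 - M) hk one_pos N 0 ?_ ?_
  · rw [mul_one] at h
    refine (h.comp Real.tendsto_log_atTop).congr fun X => ?_
    simp only [Function.comp_apply, one_mul]
  · intro ε hε
    obtain ⟨ε', hε'⟩ : ∃ ε' : ℝ, ε' = min ε 1 / 2 := ⟨_, rfl⟩
    have hm0 : 0 < min ε 1 := lt_min hε one_pos
    have hε'0 : 0 < ε' := by rw [hε']; positivity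
    have hε'1 : ε' ≤ 1 := by rw [hε']; linarith [min_le_right ε 1]
    have hε'2 : 2 * ε' ≤ ε := by rw [hε']; linarith [min_le_left ε 1]
    obtain ⟨X₀, hX₀, hmid⟩ := mid (upu_three ℚ) hM hMη hη hε'0 hε'1
    have ev1 : ∀ᶠ Y : ℝ in atTop, 1 + C ≤ ε' * √(24 * (3 * M - 1) * (Y / Real.log Y)) := by
      have : Tendsto (fun Y : ℝ => ε' * √(24 * (3 * M - 1) * (Y / Real.log Y))) atTop atTop :=
        (Real.tendsto_sqrt_atTop.comp
          (div_log_atTop.const_mul_atTop (by positivity))).const_mul_atTop hε'0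
      exact this.eventually_ge_atTop _
    obtain ⟨X₁, hX₁⟩ := eventually_atTop.1 (hup.and ev1)
    refine ⟨max X₀ X₁, lt_max_of_lt_left hX₀, fun Y hY => ?_⟩
    obtain ⟨g1, g2⟩ := hX₁ Y ((le_max_right _ _).trans hY)
    have hfin := Em_finite M (Real.exp Y) (Real.exp (η * Y))
    have h2 := hmid Y ((le_max_left _ _).trans hY) hfin.toFinset fun t ht => by
      rw [Set.Finite.mem_toFinset] at ht
      exact ht
    rw [← Set.ncard_eq_toFinset_card _ hfin] at h2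
    rw [← mul_div_assoc] at g2
    set S : ℝ := √(24 * (3 * M - 1) * Y / Real.log Y) with hS
    have hS0 : 0 ≤ S := Real.sqrt_nonneg _
    have h3 : Real.exp ((1 - M) * Y) ≤ Real.exp ((1 - M) * Y + (1 + ε') * S) := by
      refine Real.exp_le_exp.2 ?_
      have : 0 ≤ (1 + ε') * S := by positivity
      linarith
    have h4 : N Y ≤ (1 + C) * Real.exp ((1 - M) * Y + (1 + ε') * S) := by
      have := mul_le_mul_of_nonneg_left h3 hC
      rw [add_mul, one_mul]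
      linarith
    refine h4.trans ?_
    have h5 : 1 + C ≤ Real.exp (ε' * S) := by
      have := Real.add_one_le_exp (ε' * S)
      linarith
    have h6 : (1 + C) * Real.exp ((1 - M) * Y + (1 + ε') * S) ≤
        Real.exp (ε' * S) * Real.exp ((1 - M) * Y + (1 + ε') * S) :=
      mul_le_mul_of_nonneg_right h5 (Real.exp_pos _).le
    refine h6.trans ?_
    rw [← Real.exp_add, Real.exp_le_exp]
    have h7 : 2 * ε' * S ≤ ε * S := mul_le_mul_of_nonneg_right hε'2 hS0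
    nlinarith
  · intro ε hε hε1
    obtain ⟨X₀, hX₀, hl⟩ := lo (loj_all ℚ) hM (hMη.trans hη) hε hε1
    obtain ⟨X₁, hX₁⟩ := eventually_atTop.1 hlo
    refine ⟨max X₀ X₁, lt_max_of_lt_left hX₀, fun Y hY => ?_⟩
    rw [add_zero]
    exact (hl Y ((le_max_left _ _).trans hY)).trans (hX₁ Y ((le_max_right _ _).trans hY))

theorem lo_le {M A : ℝ} (hA : M < A) : ∀ᶠ Y : ℝ in atTop,
    ((Ex M (Real.exp Y) (2 * Real.exp (M * Y))).ncard : ℝ) ≤
      ((Ex M (Real.exp Y) (Real.exp Y ^ A)).ncard : ℝ) := by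
  filter_upwards [eventually_ge_atTop (Real.log 2 / (A - M))] with Y hY
  have hAM : 0 < A - M := by linarith
  rw [div_le_iff₀ hAM] at hY
  have hle : 2 * Real.exp (M * Y) ≤ Real.exp Y ^ A := by
    rw [← Real.exp_mul]
    calc 2 * Real.exp (M * Y) = Real.exp (Real.log 2 + M * Y) := by
          rw [Real.exp_add, Real.exp_log (by norm_num)]
      _ ≤ Real.exp (Y * A) := Real.exp_le_exp.2 (by linarith)
  have hs : Ex M (Real.exp Y) (2 * Real.exp (M * Y)) ⊆ Ex M (Real.exp Y) (Real.exp Y ^ A) :=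
    fun t ht => ⟨ht.1, ht.2.1, ht.2.2.1, ht.2.2.2.trans hle⟩
  exact_mod_cast Set.ncard_le_ncard hs (Ex_finite _ _ _)

/-- the law for `c ≤ X ^ A` -/
theorem law {M A : ℝ} (hM : 1 / 3 < M) (hM2 : M < 3 / 7) (hA : M < A) :
    Tendsto (fun X : ℝ => (Real.log ((Ex M X (X ^ A)).ncard : ℝ) - (1 - M) * Real.log X) /
      √(Real.log X / Real.log (Real.log X))) atTop (𝓝 √(24 * (3 * M - 1))) := by
  classical
  have hη : M < 13 / 28 := by linarith
  obtain ⟨C, hC, hh⟩ := high (η := 13 / 28) (A := max A 1) (ε := 3 / 7 - M) (by norm_num)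
    (le_max_right _ _) (by linarith)
  have h := lim_of (η := 13 / 28) hM hη (by norm_num)
    (fun Y => ((Ex M (Real.exp Y) (Real.exp Y ^ A)).ncard : ℝ)) hC.le ?_ ?_
  · refine h.congr' ?_
    filter_upwards [eventually_gt_atTop (0 : ℝ)] with X hX
    rw [Real.exp_log hX]
  · filter_upwards [eventually_ge_atTop (0 : ℝ)] with Y hY
    have hX1 : 1 ≤ Real.exp Y := Real.one_le_exp hY
    have hfin := Ex_finite M (Real.exp Y) (Real.exp Y ^ A)
    rw [Set.ncard_eq_toFinset_card _ hfin]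
    have hsplit := Finset.card_filter_add_card_filter_not (s := hfin.toFinset)
      (fun t => mx t ≤ Real.exp (13 / 28 * Y))
    have h1 : ((hfin.toFinset.filter fun t => mx t ≤ Real.exp (13 / 28 * Y)).card : ℝ) ≤
        ((Em M (Real.exp Y) (Real.exp (13 / 28 * Y))).ncard : ℝ) := by
      have hs : ((hfin.toFinset.filter fun t => mx t ≤ Real.exp (13 / 28 * Y) :
          Finset (ℕ × ℕ × ℕ)) : Set (ℕ × ℕ × ℕ)) ⊆
          Em M (Real.exp Y) (Real.exp (13 / 28 * Y)) := by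
        intro t ht
        rw [Finset.mem_coe, Finset.mem_filter, Set.Finite.mem_toFinset] at ht
        exact ⟨ht.1.1, ht.1.2.1, ht.1.2.2.1, ht.2⟩
      have := Set.ncard_le_ncard hs (Em_finite _ _ _)
      rw [Set.ncard_coe_finset] at this
      exact_mod_cast this
    have h2 : ((hfin.toFinset.filter fun t => ¬ mx t ≤ Real.exp (13 / 28 * Y)).card : ℝ) ≤
        C * Real.exp ((1 - M) * Y) := by
      have := hh (Real.exp Y) hX1
        (hfin.toFinset.filter fun t => ¬ mx t ≤ Real.exp (13 / 28 * Y)) fun t ht => by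
        rw [Finset.mem_filter, Set.Finite.mem_toFinset, not_le] at ht
        obtain ⟨⟨a1, a2, a3, a4⟩, a5⟩ := ht
        refine ⟨a1, a2, ?_, a4.trans (Real.rpow_le_rpow_of_exponent_le hX1 (le_max_left _ _))⟩
        rw [← Real.exp_mul, mul_comm]
        exact a5.le.trans (mx_le a1)
      have e : (4 / 7 + (3 / 7 - M) : ℝ) = 1 - M := by ring
      have e2 : Real.exp Y ^ (1 - M) = Real.exp ((1 - M) * Y) := by
        rw [← Real.exp_mul, mul_comm Y]
      rw [e, e2] at this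
      exact this
    have h3 : (hfin.toFinset.card : ℝ) =
        ((hfin.toFinset.filter fun t => mx t ≤ Real.exp (13 / 28 * Y)).card : ℝ) +
        ((hfin.toFinset.filter fun t => ¬ mx t ≤ Real.exp (13 / 28 * Y)).card : ℝ) := by
      exact_mod_cast hsplit.symm
    rw [h3]
    linarith
  · exact lo_le hA

/-- the law for `c ≤ X ^ A`, `A < 1/2` -/
theorem law' {M A : ℝ} (hM : 1 / 3 < M) (hA : M < A) (hA2 : A < 1 / 2) :
    Tendsto (fun X : ℝ => (Real.log ((Ex M X (X ^ A)).ncard : ℝ) - (1 - M) * Real.log X) /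
      √(Real.log X / Real.log (Real.log X))) atTop (𝓝 √(24 * (3 * M - 1))) := by
  have h := lim_of (η := A) hM hA hA2
    (fun Y => ((Ex M (Real.exp Y) (Real.exp Y ^ A)).ncard : ℝ)) le_rfl ?_ (lo_le hA)
  · refine h.congr' ?_
    filter_upwards [eventually_gt_atTop (0 : ℝ)] with X hX
    rw [Real.exp_log hX]
  · refine Eventually.of_forall fun Y => ?_
    rw [zero_mul, add_zero]
    have hs : Ex M (Real.exp Y) (Real.exp Y ^ A) ⊆ Em M (Real.exp Y) (Real.exp (A * Y)) := by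
      intro t ht
      refine ⟨ht.1, ht.2.1, ht.2.2.1, (mx_le ht.1).trans ?_⟩
      rw [mul_comm, Real.exp_mul]
      exact ht.2.2.2
    exact_mod_cast Set.ncard_le_ncard hs (Em_finite _ _ _)

/-- the triples of all heights -/
def Ea (M X : ℝ) : Set (ℕ × ℕ × ℕ) :=
  {t | Ab t ∧ (r3 t : ℝ) ≤ X ∧ (r3 t : ℝ) ^ M ≤ (t.2.2 : ℝ)}

open Pool.Agent.Results.MP_1ea25c_nt.AlmostAllTriples in
/-- the triples of a set of pairs, in both orders -/
def im (S : Set (ℕ × ℕ)) : Set (ℕ × ℕ × ℕ) :=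
  (fun p : ℕ × ℕ => (p.1, p.2, p.1 + p.2)) '' S ∪ (fun p : ℕ × ℕ => (p.2, p.1, p.1 + p.2)) '' S

theorem im_finite {S : Set (ℕ × ℕ)} (h : S.Finite) : (im S).Finite :=
  (h.image _).union (h.image _)

theorem im_card {S : Set (ℕ × ℕ)} (h : S.Finite) : (im S).ncard ≤ 2 * S.ncard := by
  unfold im
  refine (Set.ncard_union_le _ _).trans ?_
  have h1 := Set.ncard_image_le (f := fun p : ℕ × ℕ => (p.1, p.2, p.1 + p.2)) h
  have h2 := Set.ncard_image_le (f := fun p : ℕ × ℕ => (p.2, p.1, p.1 + p.2)) h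
  omega

theorem mem_im {S : Set (ℕ × ℕ)} {t : ℕ × ℕ × ℕ} (h : Ab t)
    (h1 : t.1 ≤ t.2.1 → (t.1, t.2.1) ∈ S) (h2 : t.2.1 ≤ t.1 → (t.2.1, t.1) ∈ S) : t ∈ im S := by
  obtain ⟨a, b, c⟩ := t
  have h3 : a + b = c := h.2.2.2
  rcases le_total a b with h4 | h4
  · exact Or.inl ⟨(a, b), h1 h4, by simp [h3]⟩
  · refine Or.inr ⟨(b, a), h2 h4, ?_⟩
    simp only [Prod.mk.injEq, true_and]
    omega

open Pool.Agent.Results.MP_1ea25c_nt.AlmostAllTriples in
theorem rad3_eq {t : ℕ × ℕ × ℕ} (h : Ab t) : rad3 (t.1, t.2.1) = r3 t := by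
  unfold rad3 r3 rd radical
  simp only
  rw [h.2.2.2]

open Pool.Agent.Results.MP_1ea25c_nt.AlmostAllTriples in
theorem rad3_eq' {t : ℕ × ℕ × ℕ} (h : Ab t) : rad3 (t.2.1, t.1) = r3 t := by
  unfold rad3 r3 rd radical
  simp only
  rw [add_comm, h.2.2.2, mul_comm t.2.1 t.1]

open Pool.Agent.Results.MP_1ea25c_nt.AlmostAllTriples in
theorem Ea_finite (M X : ℝ) : (Ea M X).Finite := by
  refine (im_finite (Pool.Agent.Y911.AB.triples_finite' X)).subset fun t ht => ?_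
  refine mem_im ht.1 (fun h => ⟨ht.1.1, h, ht.1.2.2.1, ?_⟩)
    (fun h => ⟨ht.1.2.1, h, ht.1.2.2.1.symm, ?_⟩)
  · rw [rad3_eq ht.1]
    exact ht.2.1
  · rw [rad3_eq' ht.1]
    exact ht.2.1

open Pool.Agent.Results.MP_1ea25c_nt.AlmostAllTriples Pool.Agent.Y911.AA in
/-- the law for the triples of all heights -/
theorem lawA : ∃ M₀ : ℝ, 1 / 3 < M₀ ∧ ∀ M : ℝ, 1 / 3 < M → M < M₀ →
    Tendsto (fun X : ℝ => (Real.log ((Ea M X).ncard : ℝ) - (1 - M) * Real.log X) /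
      √(Real.log X / Real.log (Real.log X))) atTop (𝓝 √(24 * (3 * M - 1))) := by
  obtain ⟨M₀, h1, h2, hup⟩ := Pool.Agent.Y911.AB.upper_exc
  refine ⟨M₀, h1, fun M hM hM0 => ?_⟩
  obtain ⟨C, hC, hv⟩ := hup M₀ h1 le_rfl (M₀ - M) (by linarith)
  obtain ⟨A, hA⟩ : ∃ A : ℝ, A = 4 / 9 := ⟨_, rfl⟩
  have h := lim_of (η := A) (C := 2 * C) hM (by linarith) (by linarith)
    (fun Y => ((Ea M (Real.exp Y)).ncard : ℝ)) (by positivity) ?_ ?_
  · refine h.congr' ?_
    filter_upwards [eventually_gt_atTop (0 : ℝ)] with X hX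
    rw [Real.exp_log hX]
  · filter_upwards [eventually_ge_atTop (0 : ℝ)] with Y hY
    have hX1 : 1 ≤ Real.exp Y := Real.one_le_exp hY
    have hvf : (viol M₀ (Real.exp Y)).Finite :=
      (Pool.Agent.Y911.AB.triples_finite' _).subset fun p hp => hp.1
    have hs : Ea M (Real.exp Y) ⊆ Em M (Real.exp Y) (Real.exp (A * Y)) ∪
        im (viol M₀ (Real.exp Y)) := by
      intro t ht
      rcases le_or_gt ((r3 t : ℝ) ^ M₀) (t.2.2 : ℝ) with g | g
      · right
        refine mem_im ht.1 (fun h => ⟨⟨ht.1.1, h, ht.1.2.2.1, ?_⟩, ?_⟩)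
          (fun h => ⟨⟨ht.1.2.1, h, ht.1.2.2.1.symm, ?_⟩, ?_⟩)
        · rw [rad3_eq ht.1]
          exact ht.2.1
        · show ((rad3 (t.1, t.2.1) : ℕ) : ℝ) ^ M₀ ≤ ((t.1 + t.2.1 : ℕ) : ℝ)
          rw [rad3_eq ht.1, ht.1.2.2.2]
          exact g
        · rw [rad3_eq' ht.1]
          exact ht.2.1
        · show ((rad3 (t.2.1, t.1) : ℕ) : ℝ) ^ M₀ ≤ ((t.2.1 + t.1 : ℕ) : ℝ)
          rw [rad3_eq' ht.1, add_comm t.2.1, ht.1.2.2.2]
          exact g
      · left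
        refine ⟨ht.1, ht.2.1, ht.2.2, (mx_le ht.1).trans ?_⟩
        have g1 : (r3 t : ℝ) ^ M₀ ≤ (Real.exp Y) ^ M₀ :=
          Real.rpow_le_rpow (Nat.cast_nonneg _) ht.2.1 (by linarith)
        have g2 : (Real.exp Y) ^ M₀ ≤ (Real.exp Y) ^ A :=
          Real.rpow_le_rpow_of_exponent_le hX1 (by linarith)
        rw [mul_comm, Real.exp_mul]
        exact g.le.trans (g1.trans g2)
    have h3 := Set.ncard_le_ncard hs ((Em_finite _ _ _).union (im_finite hvf))
    have h4 := h3.trans (Set.ncard_union_le _ _)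
    have h5 := h4.trans (Nat.add_le_add_left (im_card hvf) _)
    have h6 : ((Ea M (Real.exp Y)).ncard : ℝ) ≤
        ((Em M (Real.exp Y) (Real.exp (A * Y))).ncard : ℝ) +
          2 * ((viol M₀ (Real.exp Y)).ncard : ℝ) := by exact_mod_cast h5
    have h7 := hv (Real.exp Y) hX1
    have e : (1 - M₀ + (M₀ - M) : ℝ) = 1 - M := by ring
    have e2 : Real.exp Y ^ (1 - M) = Real.exp ((1 - M) * Y) := by
      rw [← Real.exp_mul, mul_comm Y]
    rw [e, e2] at h7
    linarith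
  · refine Eventually.of_forall fun Y => ?_
    have hs : Ex M (Real.exp Y) (2 * Real.exp (M * Y)) ⊆ Ea M (Real.exp Y) :=
      fun t ht => ⟨ht.1, ht.2.1, ht.2.2.1⟩
    exact_mod_cast Set.ncard_le_ncard hs (Ea_finite _ _)

end Pool.Agent.Helper41x.Fr
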