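import Pool.Agent.Helper41x.Fr.Win

/-!
# The lower bound
-/

set_option autoImplicit false

namespace Pool.Agent.Helper41x.Fr

open NumberField IsDedekindDomain Finset Filter Topology Pool.Agent.H691R3 Pool.Agent.W223.AK
open Pool.Agent.N906.KG Pool.Agent.H813R3.Abc Pool.Agent.N348.QP

/-- the triples with `rad ≤ X`, `rad ^ M ≤ c ≤ Z` -/
def Ex (M X Z : ℝ) : Set (ℕ × ℕ × ℕ) :=
  {t | Ab t ∧ (r3 t : ℝ) ≤ X ∧ (r3 t : ℝ) ^ M ≤ (t.2.2 : ℝ) ∧ (t.2.2 : ℝ) ≤ Z}

theorem fin_of_le {S : Set (ℕ × ℕ × ℕ)} {Z : ℝ} (h : ∀ t ∈ S, Ab t ∧ (t.2.2 : ℝ) ≤ Z) : S.Finite := by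
  refine Set.Finite.subset (Finset.finite_toSet
    ((range (⌊Z⌋₊ + 1)) ×ˢ ((range (⌊Z⌋₊ + 1)) ×ˢ (range (⌊Z⌋₊ + 1))))) ?_
  rintro ⟨a, b, c⟩ ht
  obtain ⟨⟨h1, h2, h3, h4⟩, h5⟩ := h _ ht
  simp only at h1 h2 h3 h4 h5
  have h6 : c ≤ ⌊Z⌋₊ := Nat.le_floor h5
  simp only [Finset.coe_product, Finset.coe_range, Set.mem_prod, Set.mem_Iio]
  omega

theorem Ex_finite (M X Z : ℝ) : (Ex M X Z).Finite :=
  fin_of_le (Z := Z) fun _ ht => ⟨ht.1, ht.2.2.2⟩

/-- the lower bound -/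
theorem lo (h2 : S_LOJ ℚ) {M : ℝ} (hM : 1 / 3 < M) (hM2 : M < 1 / 2) {ε : ℝ} (hε : 0 < ε)
    (hε1 : ε < 1) : ∃ X₀ : ℝ, 1 < X₀ ∧ ∀ Y : ℝ, X₀ ≤ Y →
      Real.exp ((1 - M) * Y + (1 - ε) * √(24 * (3 * M - 1) * Y / Real.log Y)) ≤
        ((Ex M (Real.exp Y) (2 * Real.exp (M * Y))).ncard : ℝ) := by
  classical
  have hM0 : 0 < M := by linarith
  set κ : ℝ := 3 - 1 / M with hκ
  have hMi : 1 / M < 3 := by rw [div_lt_iff₀ hM0]; linarith
  have hMi2 : 2 < 1 / M := by rw [lt_div_iff₀ hM0]; linarith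
  have hκ0 : 0 < κ := by rw [hκ]; linarith
  have hκ1 : κ < 1 := by rw [hκ]; linarith
  have hsum : ∑ _l : Fin 3, κ / 3 = κ := by
    rw [Finset.sum_const, Finset.card_univ, Fintype.card_fin]
    simp
    ring
  obtain ⟨X₀, hX₀, h⟩ := h2 3 a3 ∅ (fun _ => κ / 3) ε 0 (by norm_num) al_a3 gd_a3
    (fun l => by positivity) (by rw [hsum]; exact hκ0) (by rw [hsum]; exact hκ1) hε hε1 le_rfl
  refine ⟨X₀ / M, by rw [lt_div_iff₀ hM0]; linarith, fun Y hY => ?_⟩
  have hY' : X₀ ≤ M * Y := by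
    rw [div_le_iff₀ hM0] at hY
    linarith
  have hMY1 : 1 < M * Y := by linarith
  have hY0 : 0 < Y := by
    by_contra hc
    push Not at hc
    nlinarith
  obtain ⟨F, hF, hc⟩ := h (M * Y) hY'
  have hlM : 0 < Real.log (M * Y) := Real.log_pos hMY1
  have hll : Real.log (M * Y) ≤ Real.log Y := Real.log_le_log (by linarith) (by nlinarith)
  have hpos : ∀ x ∈ F, 0 < x := by
    intro x hx
    obtain ⟨-, -, g3, -⟩ := hF x hx
    obtain ⟨w⟩ := (inferInstance : Nonempty (InfinitePlace ℚ))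
    have h3 := g3 w
    have h4 : w.embedding x = ((x : ℝ) : ℂ) := by
      rw [eq_ratCast w.embedding x]
      push_cast
      rfl
    rw [h4, Complex.ofReal_re] at h3
    exact_mod_cast h3
  set ψ : ℚ → ℕ × ℕ × ℕ := fun x => (x.num.toNat, x.den, x.num.toNat + x.den) with hψ
  have hdiv : ∀ x ∈ F, ((x.num.toNat : ℕ) : ℚ) / x.den = x := by
    intro x hx
    have h3 : 0 ≤ x.num := (Rat.num_pos.2 (hpos x hx)).le
    have h4 : ((x.num.toNat : ℕ) : ℚ) = (x.num : ℚ) := by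
      have := Int.toNat_of_nonneg h3
      exact_mod_cast this
    rw [h4]
    exact Rat.num_div_den x
  have hinj : Set.InjOn ψ (F : Set ℚ) := by
    intro x hx y hy hxy
    have h3 : x.num.toNat = y.num.toNat := congrArg Prod.fst hxy
    have h4 : x.den = y.den := congrArg (fun t => t.2.1) hxy
    rw [← hdiv x hx, ← hdiv y hy, h3, h4]
  have hsub : ((F.image ψ : Finset (ℕ × ℕ × ℕ)) : Set (ℕ × ℕ × ℕ)) ⊆
      Ex M (Real.exp Y) (2 * Real.exp (M * Y)) := by
    intro t ht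
    obtain ⟨x, hx, rfl⟩ := Finset.mem_image.1 (Finset.mem_coe.1 ht)
    obtain ⟨g1, g2, -, P, hP, g4⟩ := hF x hx
    have hnum : 0 < x.num := Rat.num_pos.2 (hpos x hx)
    have hab : Nat.Coprime x.num.toNat x.den := by
      have := x.reduced
      rwa [show x.num.natAbs = x.num.toNat by omega] at this
    have hA : Ab (ψ x) := ⟨by show 0 < x.num.toNat; omega, x.den_pos, hab, rfl⟩
    have hxab : ((ψ x).1 : ℚ) / (ψ x).2.1 = x := hdiv x hx
    rw [← hxab] at g2 hP g4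
    have hhr : hr (aff (((ψ x).1 : ℚ) / (ψ x).2.1)) = Real.log (mx (ψ x)) :=
      hr_eq hA.1 hA.2.1 hA.2.2.1
    rw [hhr] at g2
    have hs : Real.log (r3 (ψ x)) ≤ (3 - κ) * Real.log (mx (ψ x)) := by
      rw [← log_r3 hA hP]
      calc ∑ l, rl (P l) ≤ ∑ _l : Fin 3, (1 - κ / 3) * Real.log (mx (ψ x)) :=
            Finset.sum_le_sum fun l _ => by
              have := g4 l
              rw [add_zero, hhr] at this
              exact this
        _ = (3 - κ) * Real.log (mx (ψ x)) := by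
            rw [Finset.sum_const, Finset.card_univ, Fintype.card_fin]
            simp
            ring
    have h3k : 3 - κ = 1 / M := by rw [hκ]; ring
    rw [h3k] at hs
    have hr0 : (0 : ℝ) < r3 (ψ x) := by exact_mod_cast rd_pos _
    have hm0 := mx_pos hA
    have hs2 : M * Real.log (r3 (ψ x)) ≤ Real.log (mx (ψ x)) := by
      have := mul_le_mul_of_nonneg_left hs hM0.le
      rwa [← mul_assoc, mul_one_div_cancel hM0.ne', one_mul] at this
    refine ⟨hA, ?_, ?_, ?_⟩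
    · rw [← Real.log_le_iff_le_exp hr0]
      have : M * Real.log (r3 (ψ x)) ≤ M * Y := hs2.trans g2
      exact le_of_mul_le_mul_left this hM0
    · refine le_trans ?_ (mx_le hA)
      rw [← Real.log_le_log_iff (Real.rpow_pos_of_pos hr0 _) hm0, Real.log_rpow hr0]
      exact hs2
    · refine (le_mx hA).trans ?_
      rw [Real.log_le_iff_le_exp hm0] at g2
      linarith
  have h3 := Set.ncard_le_ncard hsub (Ex_finite _ _ _)
  rw [Set.ncard_coe_finset, Finset.card_image_of_injOn hinj] at h3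
  refine le_trans ?_ (hc.trans (by exact_mod_cast h3))
  refine Real.exp_le_exp.2 ?_
  have e1 : ∑ _l : Fin 3, √(8 * (κ / 3) * (M * Y) / Real.log (M * Y)) =
      √(24 * (3 * M - 1) * Y / Real.log (M * Y)) := by
    rw [Finset.sum_const, Finset.card_univ, Fintype.card_fin, nsmul_eq_mul]
    have e2 : ((3 : ℕ) : ℝ) = √9 := by
      rw [show (9 : ℝ) = 3 ^ 2 by norm_num, Real.sqrt_sq (by norm_num)]
      norm_num
    rw [e2, ← Real.sqrt_mul (by norm_num)]
    congr 1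
    have e3 : κ * M = 3 * M - 1 := by rw [hκ]; field_simp
    rw [← e3]
    ring
  have e4 : 2 - ∑ _l : Fin 3, κ / 3 = 1 / M - 1 := by rw [hsum, hκ]; ring
  rw [e1, e4]
  have e5 : (1 / M - 1) * (M * Y) = (1 - M) * Y := by field_simp
  rw [e5]
  have e6 : √(24 * (3 * M - 1) * Y / Real.log Y) ≤ √(24 * (3 * M - 1) * Y / Real.log (M * Y)) := by
    refine Real.sqrt_le_sqrt (div_le_div_of_nonneg_left ?_ hlM hll)
    have : 0 < 3 * M - 1 := by linarith
    positivity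
  have e7 : 0 < 1 - ε := by linarith
  nlinarith

end Pool.Agent.Helper41x.Fr
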