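import Pool.Agent.Helper41x.Fr.Up

/-!
# The upper bound in the middle range
-/

set_option autoImplicit false

namespace Pool.Agent.Helper41x.Fr

open Finset Filter Topology
open Pool.Agent.N906.KG

theorem mid (h1 : S_UPU ℚ 3 1) {M η ε : ℝ} (hM : 1 / 3 < M) (hMη : M < η) (hη : η < 1 / 2)
    (hε : 0 < ε) (hε2 : ε ≤ 1) : ∃ X₀ : ℝ, 1 < X₀ ∧ ∀ Y : ℝ, X₀ ≤ Y →
      ∀ F : Finset (ℕ × ℕ × ℕ), (∀ t ∈ F, Ab t ∧ (r3 t : ℝ) ≤ Real.exp Y ∧
        (r3 t : ℝ) ^ M ≤ (t.2.2 : ℝ) ∧ mx t ≤ Real.exp (η * Y)) →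
      (F.card : ℝ) ≤ Real.exp ((1 - M) * Y + (1 + ε) * √(24 * (3 * M - 1) * Y / Real.log Y)) := by
  classical
  have hM0 : 0 < M := by linarith
  have hη0 : 0 < η := by linarith
  have hk : 0 < 3 * M - 1 := by linarith
  set ε₁ : ℝ := ε / 4 with hε₁
  have hε₁0 : 0 < ε₁ := by positivity
  have hε₁1 : ε₁ ≤ 1 / 4 := by rw [hε₁]; linarith
  set δ : ℝ := min ((3 * M - 1) / (2 * M)) (1 / η - 2) with hδ
  have hδ0 : 0 < δ := by
    refine lt_min (by positivity) ?_
    rw [sub_pos, lt_div_iff₀ hη0]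
    linarith
  obtain ⟨X₀, hX₀, hw⟩ := win h1 hδ0 hε₁0
  have ev1 : ∀ᶠ Y : ℝ in atTop, X₀ ≤ Y / 4 :=
    (tendsto_id.atTop_div_const (by norm_num)).eventually_ge_atTop X₀
  have ev2 : ∀ᶠ Y : ℝ in atTop, 6 ≤ (3 * M - 1) / (2 * M) * (Y / 4) :=
    ((tendsto_id.atTop_div_const (by norm_num)).const_mul_atTop (by positivity)).eventually_ge_atTop 6
  have ev3 : ∀ᶠ Y : ℝ in atTop, 1 ≤ Real.log (Y / 4) :=
    (Real.tendsto_log_atTop.comp (tendsto_id.atTop_div_const (by norm_num))).eventually_ge_atTop 1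
  have ev4 : ∀ᶠ Y : ℝ in atTop, 5184 ≤ 24 * (3 * M - 1) * (Y / Real.log Y) :=
    (div_log_atTop.const_mul_atTop (by positivity)).eventually_ge_atTop 5184
  have ev5 : ∀ᶠ Y : ℝ in atTop, Real.log Y ≤ (1 + ε₁) ^ 2 * Real.log (Y / 4) := by
    have h2 : ∀ᶠ Y : ℝ in atTop, (1 + ε₁) ^ 2 * Real.log 4 / ((1 + ε₁) ^ 2 - 1) ≤ Real.log Y :=
      Real.tendsto_log_atTop.eventually_ge_atTop _
    filter_upwards [h2, eventually_gt_atTop (0 : ℝ)] with Y g1 g2
    have h3 : 0 < (1 + ε₁) ^ 2 - 1 := by nlinarith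
    rw [div_le_iff₀ h3] at g1
    rw [Real.log_div g2.ne' (by norm_num)]
    linarith
  have ev6 := log_small (c := ε₁ * √(24 * (3 * M - 1))) (by positivity) 6
  obtain ⟨X₁, hX₁⟩ := eventually_atTop.1 (ev1.and (ev2.and (ev3.and (ev4.and (ev5.and ev6)))))
  refine ⟨max X₁ 2, lt_max_of_lt_right (by norm_num), fun Y hY F hF => ?_⟩
  obtain ⟨g1, g2, g3, g4, g5, g6⟩ := hX₁ Y ((le_max_left _ _).trans hY)
  have hY2 : 2 ≤ Y := (le_max_right _ _).trans hY
  have hY0 : 0 < Y := by linarith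
  have hlY : 0 < Real.log Y := Real.log_pos (by linarith)
  set S : ℝ := √(24 * (3 * M - 1) * Y / Real.log Y) with hS
  have hS0 : 0 ≤ S := Real.sqrt_nonneg _
  have hSe : √(24 * (3 * M - 1)) * √(Y / Real.log Y) = S := by
    rw [← Real.sqrt_mul (by positivity), hS]
    congr 1
    ring
  rw [mul_assoc, hSe] at g6
  set B : ℝ := Real.exp ((1 - M) * Y + 6 + (1 + 3 * ε₁) * S) with hB
  have hlog2 : 0 < Real.log 2 := Real.log_pos (by norm_num)
  -- the small triples
  set m₀ : ℝ := (1 - M) * Y / 2 with hm₀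
  have hm₀4 : Y / 4 ≤ m₀ := by rw [hm₀]; nlinarith
  have c1 : ((F.filter fun t => Real.log (mx t) ≤ m₀).card : ℝ) ≤ B := by
    refine (triv (m := m₀) _ fun t ht => ?_).trans ?_
    · rw [Finset.mem_filter] at ht
      exact ⟨(hF t ht.1).1, ht.2⟩
    · rw [hB, Real.exp_le_exp, hm₀]
      have : 0 ≤ (1 + 3 * ε₁) * S := by positivity
      linarith
  -- the windows
  set n : ℕ := ⌊Y⌋₊ + 1 with hn
  have c2 : ∀ i ∈ Finset.range n, ((F.filter fun t => m₀ < Real.log (mx t) ∧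
      ⌊η * Y - Real.log (mx t)⌋₊ = i).card : ℝ) ≤ B := by
    intro i _
    rcases Finset.eq_empty_or_nonempty (F.filter fun t => m₀ < Real.log (mx t) ∧
      ⌊η * Y - Real.log (mx t)⌋₊ = i) with he | ⟨t₀, ht₀⟩
    · rw [he, Finset.card_empty, Nat.cast_zero]
      exact (Real.exp_pos _).le
    have key : ∀ t ∈ F, m₀ < Real.log (mx t) → ⌊η * Y - Real.log (mx t)⌋₊ = i →
        (η * Y - i) - 1 < Real.log (mx t) ∧ Real.log (mx t) ≤ η * Y - i := by
      intro t ht h2 h3
      obtain ⟨a1, a2, a3, a4⟩ := hF t ht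
      rw [← Real.log_le_iff_le_exp (mx_pos a1)] at a4
      have h4 : (0 : ℝ) ≤ η * Y - Real.log (mx t) := by linarith
      have h5 := Nat.floor_le h4
      have h6 := Nat.lt_floor_add_one (η * Y - Real.log (mx t))
      rw [h3] at h5 h6
      constructor <;> linarith
    set m : ℝ := η * Y - i with hm
    have hmlo : m₀ ≤ m := by
      rw [Finset.mem_filter] at ht₀
      exact ht₀.2.1.le.trans (key t₀ ht₀.1 ht₀.2.1 ht₀.2.2).2
    have hm4 : Y / 4 ≤ m := hm₀4.trans hmlo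
    have hmhi : m ≤ η * Y := by
      rw [hm]
      linarith [(Nat.cast_nonneg i : (0 : ℝ) ≤ i)]
    obtain ⟨o1, o2, o3⟩ := one (G := 3 * (m - 1) - min Y ((m + Real.log 2) / M)) hM hMη hη hδ0
      (min_le_left _ _) (min_le_right _ _) hε₁0 (by linarith) hm4 hmhi g2 g3 g4 rfl
    have h2 := hw m _ (F.filter fun t => m₀ < Real.log (mx t) ∧
      ⌊η * Y - Real.log (mx t)⌋₊ = i) (g1.trans hm4) o1 o2 fun t ht => by
        rw [Finset.mem_filter] at ht
        obtain ⟨a1, a2, a3, a4⟩ := hF t ht.1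
        obtain ⟨k1, k2⟩ := key t ht.1 ht.2.1 ht.2.2
        refine ⟨a1, k1, k2, ?_⟩
        have hr0 : (0 : ℝ) < r3 t := by exact_mod_cast rd_pos _
        have h3 : Real.log (r3 t) ≤ Y := by rwa [Real.log_le_iff_le_exp hr0]
        have h4 : Real.log (r3 t) ≤ (m + Real.log 2) / M := by
          rw [le_div_iff₀ hM0, mul_comm, ← Real.log_rpow hr0]
          have h5 : (r3 t : ℝ) ^ M ≤ 2 * mx t := a3.trans (le_mx a1)
          have h6 := Real.log_le_log (Real.rpow_pos_of_pos hr0 _) h5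
          rw [Real.log_mul (by norm_num) (mx_pos a1).ne'] at h6
          linarith
        have h5 := le_min h3 h4
        linarith
    refine h2.trans ?_
    rw [hB, Real.exp_le_exp]
    refine o3.trans ?_
    have hlm : 1 ≤ Real.log m := g3.trans (Real.log_le_log (by linarith) hm4)
    have h3 : √(24 * (3 * M - 1) * Y / Real.log m) ≤ (1 + ε₁) * S := by
      have h4 : 24 * (3 * M - 1) * Y / Real.log m ≤
          (1 + ε₁) ^ 2 * (24 * (3 * M - 1) * Y / Real.log Y) := by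
        rw [div_le_iff₀ (by linarith)]
        have h5 : Real.log Y ≤ (1 + ε₁) ^ 2 * Real.log m := g5.trans
          (mul_le_mul_of_nonneg_left (Real.log_le_log (by linarith) hm4) (by positivity))
        have h6 : (1 + ε₁) ^ 2 * (24 * (3 * M - 1) * Y / Real.log Y) * Real.log m =
            24 * (3 * M - 1) * Y * (((1 + ε₁) ^ 2 * Real.log m) / Real.log Y) := by ring
        rw [h6]
        have h7 : 1 ≤ ((1 + ε₁) ^ 2 * Real.log m) / Real.log Y := by
          rw [le_div_iff₀ hlY]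
          linarith
        exact le_mul_of_one_le_right (by positivity) h7
      refine (Real.sqrt_le_sqrt h4).trans ?_
      rw [Real.sqrt_mul (sq_nonneg _), Real.sqrt_sq (by linarith)]
    have h4 := mul_le_mul_of_nonneg_left h3 (by linarith : (0 : ℝ) ≤ 1 + ε₁)
    have h5 : (1 + ε₁) * ((1 + ε₁) * S) ≤ (1 + 3 * ε₁) * S := by
      rw [← mul_assoc]
      refine mul_le_mul_of_nonneg_right ?_ hS0
      nlinarith
    linarith
  -- the sum
  have hcov : F ⊆ (F.filter fun t => Real.log (mx t) ≤ m₀) ∪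
      (Finset.range n).biUnion fun i => F.filter fun t => m₀ < Real.log (mx t) ∧
      ⌊η * Y - Real.log (mx t)⌋₊ = i := by
    intro t ht
    rw [Finset.mem_union, Finset.mem_filter, Finset.mem_biUnion]
    rcases le_or_gt (Real.log (mx t)) m₀ with h2 | h2
    · exact Or.inl ⟨ht, h2⟩
    · right
      refine ⟨⌊η * Y - Real.log (mx t)⌋₊, ?_, ?_⟩
      · rw [Finset.mem_range, hn]
        refine Nat.lt_succ_of_le (Nat.floor_le_floor ?_)
        have h3 : 0 ≤ Real.log (mx t) := Real.log_nonneg (one_le_mx (hF t ht).1)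
        nlinarith
      · rw [Finset.mem_filter]
        exact ⟨ht, h2, rfl⟩
  have hcard : (F.card : ℝ) ≤ B + n * B := by
    have h2 := (Finset.card_le_card hcov).trans (Finset.card_union_le _ _)
    have h3 : (((Finset.range n).biUnion fun i => F.filter fun t => m₀ < Real.log (mx t) ∧
      ⌊η * Y - Real.log (mx t)⌋₊ = i).card : ℝ) ≤ n * B := by
      have h5 := Finset.card_biUnion_le (s := Finset.range n) (t := fun i => F.filter fun t =>
        m₀ < Real.log (mx t) ∧ ⌊η * Y - Real.log (mx t)⌋₊ = i)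
      have h6 : (((Finset.range n).biUnion fun i => F.filter fun t => m₀ < Real.log (mx t) ∧
          ⌊η * Y - Real.log (mx t)⌋₊ = i).card : ℝ) ≤ ∑ i ∈ Finset.range n,
          ((F.filter fun t => m₀ < Real.log (mx t) ∧
            ⌊η * Y - Real.log (mx t)⌋₊ = i).card : ℝ) := by exact_mod_cast h5
      refine h6.trans ((Finset.sum_le_sum c2).trans ?_)
      rw [Finset.sum_const, Finset.card_range, nsmul_eq_mul]
    have h4 : (F.card : ℝ) ≤ ((F.filter fun t => Real.log (mx t) ≤ m₀).card : ℝ) +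
        ((Finset.range n).biUnion fun i => F.filter fun t => m₀ < Real.log (mx t) ∧
      ⌊η * Y - Real.log (mx t)⌋₊ = i).card := by exact_mod_cast h2
    linarith
  have hn2 : (n : ℝ) + 1 ≤ Y + 2 := by
    have := Nat.floor_le hY0.le
    rw [hn]
    push_cast
    linarith
  have hfin : (F.card : ℝ) ≤ Real.exp (Real.log (Y + 2)) * B := by
    rw [Real.exp_log (by linarith)]
    have : B + n * B ≤ (Y + 2) * B := by
      have := mul_le_mul_of_nonneg_right hn2 (Real.exp_pos ((1 - M) * Y + 6 + (1 + 3 * ε₁) * S)).le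
      rw [← hB] at this
      linarith
    linarith
  refine hfin.trans ?_
  rw [hB, ← Real.exp_add, Real.exp_le_exp]
  have h9 : (1 + ε) * S = (1 + 3 * ε₁) * S + ε₁ * S := by rw [hε₁]; ring
  rw [h9]
  linarith

end Pool.Agent.Helper41x.Fr
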