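import Pool.Agent.Helper41x.Fr.Lo

/-!
# The upper bound in the middle range
-/

set_option autoImplicit false

namespace Pool.Agent.Helper41x.Fr

open Finset Filter Topology
open Pool.Agent.N906.KG

/-- the trivial bound -/
theorem triv {m : ℝ} (F : Finset (ℕ × ℕ × ℕ)) (hF : ∀ t ∈ F, Ab t ∧ Real.log (mx t) ≤ m) :
    (F.card : ℝ) ≤ Real.exp (2 * m) := by
  set N : ℕ := ⌊Real.exp m⌋₊ with hN
  have h1 : F.card ≤ (Finset.Icc 1 N ×ˢ Finset.Icc 1 N).card := by
    refine Finset.card_le_card_of_injOn (fun t => (t.1, t.2.1)) ?_ ?_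
    · intro t ht
      obtain ⟨g, g1⟩ := hF t (Finset.mem_coe.1 ht)
      rw [Real.log_le_iff_le_exp (mx_pos g)] at g1
      have h2 : (t.1 : ℝ) ≤ Real.exp m := (le_max_left _ _).trans g1
      have h3 : (t.2.1 : ℝ) ≤ Real.exp m := (le_max_right _ _).trans g1
      simp only [Finset.coe_product, Finset.coe_Icc, Set.mem_prod, Set.mem_Icc]
      exact ⟨⟨g.1, Nat.le_floor h2⟩, g.2.1, Nat.le_floor h3⟩
    · rintro ⟨a, b, c⟩ ht ⟨a', b', c'⟩ ht' hh
      have g := (hF _ (Finset.mem_coe.1 ht)).1.2.2.2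
      have g' := (hF _ (Finset.mem_coe.1 ht')).1.2.2.2
      simp only [Prod.mk.injEq] at hh g g'
      obtain ⟨i1, i2⟩ := hh
      subst i1 i2 g g'
      rfl
  rw [Finset.card_product, Nat.card_Icc, Nat.add_sub_cancel] at h1
  have h2 : (N : ℝ) ≤ Real.exp m := Nat.floor_le (Real.exp_pos m).le
  have h3 : (F.card : ℝ) ≤ (N : ℝ) * N := by exact_mod_cast h1
  refine h3.trans ?_
  rw [two_mul, Real.exp_add]
  exact mul_le_mul h2 h2 (Nat.cast_nonneg _) (Real.exp_pos m).le

theorem div_log_atTop : Tendsto (fun b : ℝ => b / Real.log b) atTop atTop := by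
  have h : Tendsto (fun b : ℝ => Real.log b / b) atTop (𝓝[>] 0) := by
    refine tendsto_nhdsWithin_iff.2 ⟨?_, ?_⟩
    · have := Real.isLittleO_log_id_atTop.tendsto_div_nhds_zero
      simpa using this
    · filter_upwards [eventually_gt_atTop (1 : ℝ)] with b hb
      have : 0 < b := by linarith
      exact div_pos (Real.log_pos hb) this
  have := h.inv_tendsto_nhdsGT_zero
  refine this.congr fun b => ?_
  rw [Pi.inv_apply, inv_div]

/-- `log Y` is small compared with the second order term -/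
theorem log_small {c : ℝ} (hc : 0 < c) (C : ℝ) :
    ∀ᶠ Y : ℝ in atTop, Real.log (Y + 2) + C ≤ c * √(Y / Real.log Y) := by
  have h1 : Tendsto (fun Y : ℝ => Real.log Y ^ 3 / Y) atTop (𝓝 0) := by
    have := Real.isLittleO_pow_log_id_atTop (n := 3) |>.tendsto_div_nhds_zero
    simpa using this
  have h2 : ∀ᶠ Y : ℝ in atTop, Real.log Y ^ 3 / Y < (c / 4) ^ 2 :=
    h1.eventually_lt_const (by positivity)
  have h3 : ∀ᶠ Y : ℝ in atTop, |C| + 1 ≤ Real.log Y :=
    Real.tendsto_log_atTop.eventually_ge_atTop _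
  filter_upwards [h2, h3, eventually_ge_atTop (2 : ℝ)] with Y g2 g3 g4
  have hY : 0 < Y := by linarith
  have hl : 1 ≤ Real.log Y := by linarith [abs_nonneg C]
  have hC : C ≤ Real.log Y := by linarith [le_abs_self C]
  have e1 : Real.log (Y + 2) ≤ 2 * Real.log Y := by
    have : Y + 2 ≤ Y ^ 2 := by nlinarith
    calc Real.log (Y + 2) ≤ Real.log (Y ^ 2) := Real.log_le_log (by linarith) this
      _ = 2 * Real.log Y := by rw [Real.log_pow]; norm_num
  rw [div_lt_iff₀ hY] at g2
  have e2 : (4 / c * Real.log Y) ≤ √(Y / Real.log Y) := by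
    refine Real.le_sqrt_of_sq_le ?_
    rw [le_div_iff₀ (by linarith)]
    have h5 : (4 / c * Real.log Y) ^ 2 * Real.log Y = (4 / c) ^ 2 * Real.log Y ^ 3 := by ring
    rw [h5]
    have h6 : (4 / c) ^ 2 * ((c / 4) ^ 2 * Y) = Y := by field_simp
    calc (4 / c) ^ 2 * Real.log Y ^ 3 ≤ (4 / c) ^ 2 * ((c / 4) ^ 2 * Y) :=
          mul_le_mul_of_nonneg_left g2.le (by positivity)
      _ = Y := h6
  have e3 : c * (4 / c * Real.log Y) = 4 * Real.log Y := by field_simp
  have e4 := mul_le_mul_of_nonneg_left e2 hc.le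
  rw [e3] at e4
  linarith

/-- one window -/
theorem one {M η Y m : ℝ} (hM : 1 / 3 < M) (hMη : M < η) (hη : η < 1 / 2) {δ ε₁ : ℝ}
    (hδ0 : 0 < δ) (hδ1 : δ ≤ (3 * M - 1) / (2 * M)) (hδ2 : δ ≤ 1 / η - 2) (hε1 : 0 < ε₁)
    (hε2 : ε₁ ≤ 1) (hm : Y / 4 ≤ m) (hm2 : m ≤ η * Y) (hY1 : 6 ≤ (3 * M - 1) / (2 * M) * (Y / 4))
    (hY2 : 1 ≤ Real.log (Y / 4)) (hY3 : 5184 ≤ 24 * (3 * M - 1) * (Y / Real.log Y))
    {G : ℝ} (hG : G = 3 * (m - 1) - min Y ((m + Real.log 2) / M)) :
    δ * m ≤ G ∧ G ≤ (1 - δ) * m ∧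
    2 * m - G + (1 + ε₁) * √(24 * G / Real.log m) ≤
      (1 - M) * Y + 6 + (1 + ε₁) * √(24 * (3 * M - 1) * Y / Real.log m) := by
  have hM0 : 0 < M := by linarith
  have hη0 : 0 < η := by linarith
  have hMi : 1 / M < 3 := by rw [div_lt_iff₀ hM0]; linarith
  have hk : 0 < 3 * M - 1 := by linarith
  have hY40 : 0 < Y / 4 := by
    by_contra hc
    push Not at hc
    have : Y / 4 ≤ 0 := hc
    have h1 : 0 < (3 * M - 1) / (2 * M) := by positivity
    nlinarith
  have hY0 : 0 < Y := by linarith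
  have hm0 : 0 < m := by linarith
  have hlog2 : 0 < Real.log 2 := Real.log_pos (by norm_num)
  have hlog2' : Real.log 2 < 1 := by linarith [Real.log_two_lt_d9]
  set T : ℝ := min Y ((m + Real.log 2) / M) with hT
  have hT1 : T ≤ Y := min_le_left _ _
  have hT2 : T ≤ (m + 1) / M := (min_le_right _ _).trans
    (div_le_div_of_nonneg_right (by linarith) hM0.le)
  have hT2' : T ≤ 1 / M * m + 3 := by
    have : (m + 1) / M = 1 / M * m + 1 / M := by field_simp
    linarith
  have hkM : (3 * M - 1) / (2 * M) = (3 - 1 / M) / 2 := by field_simp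
  have hL1 : 1 ≤ Real.log m := hY2.trans (Real.log_le_log hY40 hm)
  have hmY : m ≤ Y := by nlinarith
  have hL2 : Real.log m ≤ Real.log Y := Real.log_le_log hm0 hmY
  have hL0 : 0 < Real.log m := by linarith
  have hLY : 0 < Real.log Y := by linarith
  have hmul : 1 / M * M = 1 := one_div_mul_cancel hM0.ne'
  refine ⟨?_, ?_, ?_⟩
  · have h1 : 6 ≤ (3 * M - 1) / (2 * M) * m :=
      hY1.trans (mul_le_mul_of_nonneg_left hm (by positivity))
    have h2 : δ * m ≤ (3 * M - 1) / (2 * M) * m := mul_le_mul_of_nonneg_right hδ1 hm0.le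
    rw [hkM] at h1 h2
    rw [hG]
    nlinarith
  · have h1 : 1 / η * m ≤ T := by
      refine le_min ?_ ?_
      · rw [one_div, inv_mul_le_iff₀ hη0]
        exact hm2
      · have : 1 / η * m ≤ 1 / M * m :=
          mul_le_mul_of_nonneg_right (one_div_le_one_div_of_le hM0 hMη.le) hm0.le
        refine this.trans ?_
        rw [div_mul_eq_mul_div, one_mul]
        exact div_le_div_of_nonneg_right (by linarith) hM0.le
    have h2 : δ * m ≤ (1 / η - 2) * m := mul_le_mul_of_nonneg_right hδ2 hm0.le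
    rw [hG]
    nlinarith
  · rcases le_or_gt m (M * Y) with hc | hc
    · have h1 : 1 / M * m ≤ T := by
        refine le_min ?_ ?_
        · rw [one_div, inv_mul_le_iff₀ hM0]
          exact hc
        · rw [div_mul_eq_mul_div, one_mul]
          exact div_le_div_of_nonneg_right (by linarith) hM0.le
      have h2 : G ≤ (3 * M - 1) * Y := by
        have h3 : (3 - 1 / M) * m ≤ (3 - 1 / M) * (M * Y) :=
          mul_le_mul_of_nonneg_left hc (by linarith)
        have h4 : (3 - 1 / M) * (M * Y) = (3 * M - 1) * Y := by field_simp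
        rw [hG]
        nlinarith
      have h5 : √(24 * G / Real.log m) ≤ √(24 * (3 * M - 1) * Y / Real.log m) :=
        Real.sqrt_le_sqrt (div_le_div_of_nonneg_right (by nlinarith) hL0.le)
      have h6 : 2 * m - G ≤ (1 - M) * Y + 6 := by
        have h7 : 1 / M * m ≤ Y := by
          rw [one_div, inv_mul_le_iff₀ hM0]
          exact hc
        have h8 : (1 / M - 1) * m ≤ (1 / M - 1) * (M * Y) :=
          mul_le_mul_of_nonneg_left hc (by
            have : 1 < 1 / M := by rw [lt_div_iff₀ hM0]; linarith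
            linarith)
        have h9 : (1 / M - 1) * (M * Y) = (1 - M) * Y := by field_simp
        rw [h9] at h8
        have h10 : (1 / M - 1) * m = 1 / M * m - m := by ring
        rw [h10] at h8
        rw [hG]
        linarith
      have h7 := mul_le_mul_of_nonneg_left h5 (by linarith : (0 : ℝ) ≤ 1 + ε₁)
      linarith
    · have hTY : T = Y := by
        refine min_eq_left ?_
        rw [le_div_iff₀ hM0]
        linarith
      obtain ⟨s, hs⟩ : ∃ s : ℝ, s = m - M * Y := ⟨_, rfl⟩
      have hs0 : 0 < s := by linarith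
      have hG2 : G ≤ (3 * M - 1) * Y + 3 * s := by
        rw [hG, hTY, hs]
        linarith
      have hG3 : 2 * m - G = (1 - M) * Y - s + 3 := by
        rw [hG, hTY, hs]
        ring
      set A : ℝ := 24 * (3 * M - 1) * Y / Real.log m with hA
      have hA1 : 5184 ≤ A := by
        refine hY3.trans ?_
        rw [hA, mul_div_assoc]
        exact mul_le_mul_of_nonneg_left (div_le_div_of_nonneg_left hY0.le hL0 hL2) (by positivity)
      have hA2 : 72 ≤ √A := by
        refine Real.le_sqrt_of_sq_le ?_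
        norm_num
        exact hA1
      have h5 : √(24 * G / Real.log m) ≤ √A + s / (1 + ε₁) := by
        have h6 : 24 * G / Real.log m ≤ A + 72 * s := by
          have h7 : 24 * G / Real.log m ≤ (24 * (3 * M - 1) * Y + 72 * s) / Real.log m :=
            div_le_div_of_nonneg_right (by nlinarith) hL0.le
          rw [add_div] at h7
          have h8 : 72 * s / Real.log m ≤ 72 * s := div_le_self (by positivity) hL1
          linarith
        refine Real.sqrt_le_iff.2 ⟨by positivity, h6.trans ?_⟩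
        have h9 : √A ^ 2 = A := Real.sq_sqrt (by linarith)
        have h10 : s / 2 ≤ s / (1 + ε₁) := div_le_div_of_nonneg_left hs0.le (by linarith)
          (by linarith)
        have h11 : 0 ≤ (s / (1 + ε₁)) ^ 2 := sq_nonneg _
        have h12 : 72 * s ≤ 2 * √A * (s / (1 + ε₁)) := by
          calc 72 * s = 2 * 72 * (s / 2) := by ring
            _ ≤ 2 * √A * (s / (1 + ε₁)) := by
              apply mul_le_mul _ h10 (by positivity) (by positivity)
              linarith
        nlinarith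
      have h6 : (1 + ε₁) * √(24 * G / Real.log m) ≤ (1 + ε₁) * √A + s := by
        have := mul_le_mul_of_nonneg_left h5 (by linarith : (0 : ℝ) ≤ 1 + ε₁)
        rw [mul_add, mul_div_cancel₀ _ (by linarith : (1 + ε₁) ≠ 0)] at this
        exact this
      rw [hG3]
      linarith

end Pool.Agent.Helper41x.Fr
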