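import Pool.Agent.N906.QP.Stm
import Pool.Agent.N348.QP_FINT
import Pool.Agent.N575.QP_UPJ

/-!
# Windows: abc triples with `m - 1 < log max (a, b) ≤ m`
-/

set_option autoImplicit false

namespace Pool.Agent.Helper41x.Fr

open NumberField IsDedekindDomain Finset Filter Topology Pool.Agent.H691R3 Pool.Agent.W223.AK
open Pool.Agent.N906.KG Pool.Agent.H813R3.Abc Pool.Agent.N348.QP

/-- the radical -/
def rd (n : ℕ) : ℕ := ∏ p ∈ n.primeFactors, p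

theorem rd_pos (n : ℕ) : 0 < rd n :=
  Finset.prod_pos fun _ hp => (Nat.prime_of_mem_primeFactors hp).pos

/-- coprime triples -/
def Ab (t : ℕ × ℕ × ℕ) : Prop := 0 < t.1 ∧ 0 < t.2.1 ∧ Nat.Coprime t.1 t.2.1 ∧ t.1 + t.2.1 = t.2.2

/-- the radical of the product -/
def r3 (t : ℕ × ℕ × ℕ) : ℕ := rd (t.1 * t.2.1 * t.2.2)

/-- the larger of `a`, `b` -/
def mx (t : ℕ × ℕ × ℕ) : ℝ := max (t.1 : ℝ) t.2.1

theorem rd_mul {m n : ℕ} (h : Nat.Coprime m n) : rd (m * n) = rd m * rd n := by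
  unfold rd
  rw [h.primeFactors_mul, Finset.prod_union h.disjoint_primeFactors]

theorem r3_eq {t : ℕ × ℕ × ℕ} (h : Ab t) : r3 t = rd t.1 * rd t.2.1 * rd t.2.2 := by
  obtain ⟨h1, h2, h3, h4⟩ := h
  have ha : Nat.Coprime t.1 t.2.2 := by rw [← h4]; simpa using h3
  have hb : Nat.Coprime t.2.1 t.2.2 := by rw [← h4]; simpa using h3.symm
  unfold r3
  rw [rd_mul (Nat.Coprime.mul_left ha hb), rd_mul h3]

theorem mx_pos {t : ℕ × ℕ × ℕ} (h : Ab t) : 0 < mx t :=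
  lt_max_of_lt_left (by exact_mod_cast h.1)

theorem one_le_mx {t : ℕ × ℕ × ℕ} (h : Ab t) : 1 ≤ mx t :=
  le_max_of_le_left (by exact_mod_cast h.1)

theorem mx_le {t : ℕ × ℕ × ℕ} (h : Ab t) : mx t ≤ t.2.2 := by
  have hc : (t.2.2 : ℝ) = t.1 + t.2.1 := by rw [← h.2.2.2]; push_cast; ring
  have h1 : (0 : ℝ) < t.1 := by exact_mod_cast h.1
  have h2 : (0 : ℝ) < t.2.1 := by exact_mod_cast h.2.1
  rw [hc]
  exact max_le (by linarith) (by linarith)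

theorem le_mx {t : ℕ × ℕ × ℕ} (h : Ab t) : (t.2.2 : ℝ) ≤ 2 * mx t := by
  have hc : (t.2.2 : ℝ) = t.1 + t.2.1 := by rw [← h.2.2.2]; push_cast; ring
  rw [hc]
  unfold mx
  linarith [le_max_left (t.1 : ℝ) t.2.1, le_max_right (t.1 : ℝ) t.2.1]

theorem log_r3 {t : ℕ × ℕ × ℕ} (h : Ab t) {P : Fin 3 → Idl ℚ}
    (hP : N906.KG.IsP ∅ a3 ((t.1 : ℚ) / t.2.1) P) : ∑ l, rl (P l) = Real.log (r3 t) := by
  have h0 := rl_eq h.1 h.2.1 h.2.2.1 hP 0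
  have h1 := rl_eq h.1 h.2.1 h.2.2.1 hP 1
  have h2 := rl_eq h.1 h.2.1 h.2.2.1 hP 2
  have e0 : mm t.1 t.2.1 0 = t.1 := rfl
  have e1 : mm t.1 t.2.1 1 = t.2.1 := rfl
  have e2 : mm t.1 t.2.1 2 = t.2.2 := h.2.2.2
  rw [e0] at h0
  rw [e1] at h1
  rw [e2] at h2
  have hp : ∀ n : ℕ, ((rd n : ℕ) : ℝ) ≠ 0 := fun n => by exact_mod_cast (rd_pos n).ne'
  have h0' : rl (P 0) = Real.log (rd t.1 : ℕ) := h0
  have h1' : rl (P 1) = Real.log (rd t.2.1 : ℕ) := h1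
  have h2' : rl (P 2) = Real.log (rd t.2.2 : ℕ) := h2
  rw [Fin.sum_univ_three, r3_eq h, h0', h1', h2']
  push_cast
  rw [Real.log_mul (mul_ne_zero (hp _) (hp _)) (hp _), Real.log_mul (hp _) (hp _)]

theorem div_injOn {S : Set (ℕ × ℕ × ℕ)} (hS : ∀ t ∈ S, Ab t) :
    Set.InjOn (fun t : ℕ × ℕ × ℕ => (t.1 : ℚ) / t.2.1) S := by
  rintro ⟨a, b, c⟩ ht ⟨a', b', c'⟩ ht' hh
  obtain ⟨g1, g2, g3, g4⟩ := hS _ ht
  obtain ⟨g1', g2', g3', g4'⟩ := hS _ ht'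
  simp only at g1 g2 g3 g4 g1' g2' g3' g4'
  obtain ⟨i1, i2⟩ := div_inj g2 g2' g3 g3' hh
  subst i1 i2 g4 g4'
  rfl

/-- the bound for a window -/
theorem win (h1 : S_UPU ℚ 3 1) {δ ε : ℝ} (hδ : 0 < δ) (hε : 0 < ε) :
    ∃ X₀ : ℝ, 1 < X₀ ∧ ∀ (m G : ℝ) (F : Finset (ℕ × ℕ × ℕ)), X₀ ≤ m → δ * m ≤ G →
      G ≤ (1 - δ) * m →
      (∀ t ∈ F, Ab t ∧ m - 1 < Real.log (mx t) ∧ Real.log (mx t) ≤ m ∧
        Real.log (r3 t) ≤ 3 * Real.log (mx t) - G) →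
      (F.card : ℝ) ≤ Real.exp (2 * m - G + (1 + ε) * √(24 * G / Real.log m)) := by
  classical
  obtain ⟨X₀, hX₀, h⟩ := h1 a3 ∅ δ ε al_a3 gd_a3 hδ hε
  refine ⟨X₀, hX₀, fun m G F hm hG1 hG2 hF => ?_⟩
  have hinj := div_injOn (S := (F : Set (ℕ × ℕ × ℕ))) fun t ht => (hF t ht).1
  have h2 := h m G (F.image fun t : ℕ × ℕ × ℕ => (t.1 : ℚ) / t.2.1) hm hG1 hG2 ?_
  · rw [Finset.card_image_of_injOn hinj] at h2
    have e : (8 : ℝ) * ((3 : ℕ) : ℝ) * G = 24 * G := by push_cast; ring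
    rw [e] at h2
    exact h2
  · intro x hx
    obtain ⟨t, ht, rfl⟩ := Finset.mem_image.1 hx
    obtain ⟨g, g1, g2, g3⟩ := hF t ht
    have hOf := of_a3 g.1 g.2.1
    obtain ⟨P, hP⟩ := N954.KG.isP_exists al_a3 ∅ hOf
    have hhr : hr (aff ((t.1 : ℚ) / t.2.1)) = Real.log (mx t) := hr_eq g.1 g.2.1 g.2.2.1
    show Of a3 ((t.1 : ℚ) / t.2.1) ∧ m - 1 < hr (aff ((t.1 : ℚ) / t.2.1)) ∧
      hr (aff ((t.1 : ℚ) / t.2.1)) ≤ m ∧ ∃ P, N906.KG.IsP ∅ a3 ((t.1 : ℚ) / t.2.1) P ∧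
      N906.KG.tr P ≤ ((3 : ℕ) : ℝ) * hr (aff ((t.1 : ℚ) / t.2.1)) - G
    refine ⟨hOf, by rw [hhr]; exact g1, by rw [hhr]; exact g2, P, hP, ?_⟩
    have h3 := Pool.Agent.N575.QP.tr_le_rl P
    rw [log_r3 g hP] at h3
    rw [hhr]
    push_cast
    linarith

end Pool.Agent.Helper41x.Fr
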